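import Pool.Agent.Q291.TL.Line

/-!
The growth of the connection probabilities for a small parameter of the short edges.
-/

set_option autoImplicit false

namespace Q291.TL

open Filter Topology

variable {K : ℕ} {p q : unitInterval}

section

variable {d : ℕ} {t : ℝ}

theorem sm_u (hd : 0 < (d : ℝ)) (ht0 : 0 < t) (ht1 : t < 1)
    (hy : ∀ m, (d : ℝ) ^ m * uu K p q m ≤ 1) :
    Summable (fun n => (t * d) ^ n * uu K p q n) := by
  refine Summable.of_nonneg_of_le (fun n => mul_nonneg (by positivity) (uu_nonneg n)) (fun n => ?_)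
    (summable_geometric_of_lt_one ht0.le ht1)
  rw [mul_pow, mul_assoc]
  have := mul_le_mul_of_nonneg_left (hy n) (pow_nonneg ht0.le n)
  linarith

theorem sm_J (hd : 0 < (d : ℝ)) (ht0 : 0 < t) (ht1 : t < 1)
    (hy : ∀ m, (d : ℝ) ^ m * uu K p q m ≤ 1) (D : ℕ) :
    Summable (fun j => (t * d) ^ j * JJ K p q (j + D) j) := by
  refine Summable.of_nonneg_of_le (fun n => mul_nonneg (by positivity) (JJ_nonneg _ _))
    (fun n => ?_) (sm_u hd ht0 ht1 hy)
  exact mul_le_mul_of_nonneg_left (JJ_le_right _ _) (by positivity)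

/-- The generating function of the joint connection probabilities. -/
noncomputable def FF (K : ℕ) (p q : unitInterval) (s : ℝ) (D : ℕ) : ℝ :=
  ∑' j : ℕ, s ^ j * JJ K p q (j + D) j

theorem FF_nonneg {s : ℝ} (hs : 0 ≤ s) (D : ℕ) : 0 ≤ FF K p q s D :=
  tsum_nonneg fun _ => mul_nonneg (pow_nonneg hs _) (JJ_nonneg _ _)

theorem FF_rec (hd : 0 < (d : ℝ)) (ht0 : 0 < t) (ht1 : t < 1)
    (hy : ∀ m, (d : ℝ) ^ m * uu K p q m ≤ 1) {D : ℕ} (hD : D < K) :
    FF K p q (t * d) (D + 1) ≤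
      p * FF K p q (t * d) D + q * (t * d) ^ (K - D) * FF K p q (t * d) (K - D) := by
  obtain ⟨s, hs⟩ : ∃ s : ℝ, s = t * d := ⟨_, rfl⟩
  have hs0 : 0 < s := by rw [hs]; positivity
  have sm := fun D => sm_J (D := D) hd ht0 ht1 hy
  rw [← hs] at sm ⊢
  obtain ⟨g, hg⟩ : ∃ g : ℕ → ℝ, g = fun j => if K - D ≤ j then
    s ^ j * JJ K p q (j - (K - D)) j else 0 := ⟨_, rfl⟩
  have hg1 : ∀ j, g (j + (K - D)) = s ^ (K - D) * (s ^ j * JJ K p q (j + (K - D)) j) := by
    intro j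
    rw [hg]
    simp only
    rw [if_pos (by omega), Nat.add_sub_cancel, pow_add, JJ_comm]
    ring
  have smg : Summable g := by
    rw [← summable_nat_add_iff (K - D)]
    simp_rw [hg1]
    exact (sm (K - D)).mul_left _
  have hgs : ∑' j, g j = s ^ (K - D) * FF K p q s (K - D) := by
    rw [← smg.sum_add_tsum_nat_add (K - D)]
    have h0 : ∑ i ∈ Finset.range (K - D), g i = 0 := by
      apply Finset.sum_eq_zero
      intro i hi
      rw [Finset.mem_range] at hi
      rw [hg]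
      simp only
      rw [if_neg (by omega)]
    rw [h0, zero_add]
    simp_rw [hg1]
    rw [tsum_mul_left]
    rfl
  have hterm : ∀ j, s ^ j * JJ K p q (j + (D + 1)) j ≤
      p * (s ^ j * JJ K p q (j + D) j) + q * g j := by
    intro j
    have hsj : 0 ≤ s ^ j := by positivity
    rw [← Nat.add_assoc]
    by_cases hc : K ≤ j + D
    · have h1 := JJ_succ_ge (p := p) (q := q) (i := j + D) (j := j) hc (by omega)
      rw [hg]
      simp only
      rw [if_pos (show K - D ≤ j by omega), show j - (K - D) = j + D - K by omega]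
      calc s ^ j * JJ K p q (j + D + 1) j ≤ s ^ j * (p * JJ K p q (j + D) j +
            q * JJ K p q (j + D - K) j) := mul_le_mul_of_nonneg_left h1 hsj
        _ = _ := by ring
    · have h1 := JJ_succ_lt (K := K) (p := p) (q := q) (i := j + D) (j := j) (by omega) (by omega)
      rw [hg]
      simp only
      rw [if_neg (show ¬ K - D ≤ j by omega), mul_zero, add_zero]
      calc s ^ j * JJ K p q (j + D + 1) j ≤ s ^ j * (p * JJ K p q (j + D) j) :=
            mul_le_mul_of_nonneg_left h1 hsj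
        _ = _ := by ring
  have h1 := (sm (D + 1)).tsum_le_tsum hterm (((sm D).mul_left _).add (smg.mul_left _))
  rw [Summable.tsum_add ((sm D).mul_left _) (smg.mul_left _), tsum_mul_left, tsum_mul_left,
    hgs] at h1
  calc FF K p q s (D + 1) ≤ _ := h1
    _ = _ := by unfold FF; ring

theorem UU_rec (hd : 0 < (d : ℝ)) (ht0 : 0 < t) (ht1 : t < 1)
    (hy : ∀ m, (d : ℝ) ^ m * uu K p q m ≤ 1) :
    FF K p q (t * d) 0 = 1 + p * (t * d) * FF K p q (t * d) 0 +
      q * (t * d) ^ (K + 1) * FF K p q (t * d) 0 -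
      p * q * (t * d) ^ (K + 1) * FF K p q (t * d) K := by
  obtain ⟨s, hs⟩ : ∃ s : ℝ, s = t * d := ⟨_, rfl⟩
  have hs0 : 0 < s := by rw [hs]; positivity
  have sm := fun D => sm_J (D := D) hd ht0 ht1 hy
  have smu := sm_u hd ht0 ht1 hy
  rw [← hs] at sm smu ⊢
  have hF0 : FF K p q s 0 = ∑' n, s ^ n * uu K p q n := by
    unfold FF
    apply tsum_congr
    intro n
    rw [Nat.add_zero, JJ_self]
  obtain ⟨g, hg⟩ : ∃ g : ℕ → ℝ, g = fun n => if K ≤ n then
    s ^ (n + 1) * (q * uu K p q (n - K) - p * q * JJ K p q n (n - K)) else 0 := ⟨_, rfl⟩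
  have hg1 : ∀ j, g (j + K) = s ^ (K + 1) * q * (s ^ j * uu K p q j) -
      s ^ (K + 1) * (p * q) * (s ^ j * JJ K p q (j + K) j) := by
    intro j
    rw [hg]
    simp only
    rw [if_pos (by omega), Nat.add_sub_cancel, show j + K + 1 = (K + 1) + j by ring, pow_add]
    ring
  have smg : Summable g := by
    rw [← summable_nat_add_iff K]
    simp_rw [hg1]
    exact (smu.mul_left _).sub ((sm K).mul_left _)
  have hgs : ∑' j, g j = s ^ (K + 1) * q * FF K p q s 0 -
      s ^ (K + 1) * (p * q) * FF K p q s K := by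
    rw [← smg.sum_add_tsum_nat_add K]
    have h0 : ∑ i ∈ Finset.range K, g i = 0 := by
      apply Finset.sum_eq_zero
      intro i hi
      rw [Finset.mem_range] at hi
      rw [hg]
      simp only
      rw [if_neg (by omega)]
    rw [h0, zero_add]
    simp_rw [hg1]
    rw [Summable.tsum_sub (smu.mul_left _) ((sm K).mul_left _), tsum_mul_left, tsum_mul_left, hF0]
    rfl
  have hterm : ∀ n, s ^ (n + 1) * uu K p q (n + 1) = p * s * (s ^ n * uu K p q n) + g n := by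
    intro n
    rw [hg]
    simp only
    by_cases hc : K ≤ n
    · rw [if_pos hc, uu_succ_ge hc, pow_succ]
      ring
    · rw [if_neg hc, uu_succ_lt (by omega), pow_succ]
      ring
  have h1 : ∑' n, s ^ n * uu K p q n = 1 + ∑' n, s ^ (n + 1) * uu K p q (n + 1) := by
    rw [smu.tsum_eq_zero_add, uu_zero]
    simp
  rw [tsum_congr hterm, Summable.tsum_add (smu.mul_left _) smg, tsum_mul_left, hgs, ← hF0] at h1
  linarith

end

/-- The connection probabilities grow faster than `d ^ (-m)`. -/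
theorem exists_big {d K : ℕ} (hd : 2 ≤ d) (hK : 1 ≤ K) {η : ℝ} (hη1 : η ≤ 1)
    {p q : unitInterval} (hp : 0 < (p : ℝ)) (hp8 : (p : ℝ) ≤ 1 / 8) (hpη : 4 * (p : ℝ) < η)
    (hq : (q : ℝ) = (1 - p * d + η * p) / (d : ℝ) ^ (K + 1)) :
    ∃ m, 1 < (d : ℝ) ^ m * uu K p q m := by
  by_contra hcon
  push Not at hcon
  have hd2 : (2 : ℝ) ≤ d := by exact_mod_cast hd
  have hd0 : (0 : ℝ) < d := by linarith
  have hq0 : 0 ≤ (q : ℝ) := q.2.1
  have hdK : 0 < (d : ℝ) ^ (K + 1) := by positivity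
  have hqd : (q : ℝ) * (d : ℝ) ^ (K + 1) = 1 - p * d + η * p := by
    rw [hq, div_mul_cancel₀ _ hdK.ne']
  have hqd1 : (q : ℝ) * (d : ℝ) ^ (K + 1) ≤ 1 := by
    rw [hqd]
    nlinarith
  have hq4 : (q : ℝ) ≤ 1 / 4 := by
    have h1 : (4 : ℝ) ≤ (d : ℝ) ^ (K + 1) := by
      calc (4 : ℝ) = 2 ^ 2 := by norm_num
        _ ≤ (d : ℝ) ^ 2 := pow_le_pow_left₀ (by norm_num) hd2 2
        _ ≤ (d : ℝ) ^ (K + 1) := pow_le_pow_right₀ (by linarith) (by omega)
    nlinarith
  -- choice of `t`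
  obtain ⟨t, ht0, ht1, ht⟩ : ∃ t : ℝ, 0 < t ∧ t < 1 ∧
      1 ≤ (p : ℝ) * (t * d) + q * (t * d) ^ (K + 1) - 4 * (p : ℝ) ^ 2 := by
    have hcont : Continuous (fun t : ℝ => (p : ℝ) * (t * d) + q * (t * d) ^ (K + 1) -
        4 * (p : ℝ) ^ 2) := by fun_prop
    have hlim := hcont.tendsto 1
    have h1 : 1 < (p : ℝ) * (1 * d) + q * (1 * d) ^ (K + 1) - 4 * (p : ℝ) ^ 2 := by
      rw [one_mul, hqd]
      nlinarith
    have h2 : ∀ᶠ t : ℝ in 𝓝 1, 1 < (p : ℝ) * (t * d) + q * (t * d) ^ (K + 1) -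
        4 * (p : ℝ) ^ 2 := (tendsto_order.1 hlim).1 1 h1
    have h3 : ∀ᶠ t : ℝ in 𝓝 1, 0 < t := lt_mem_nhds one_pos
    have h4 : ∀ᶠ t : ℝ in 𝓝[<] 1, t < 1 := self_mem_nhdsWithin
    obtain ⟨t, ⟨a1, a2⟩, a3⟩ := (((h2.and h3).filter_mono nhdsWithin_le_nhds).and h4).exists
    exact ⟨t, a2, a3, a1.le⟩
  obtain ⟨s, hs⟩ : ∃ s : ℝ, s = t * d := ⟨_, rfl⟩
  have hs0 : 0 < s := by rw [hs]; positivity
  have hsd : s ≤ d := by rw [hs]; nlinarith
  have hrec : ∀ D, D < K → FF K p q s (D + 1) ≤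
      p * FF K p q s D + q * s ^ (K - D) * FF K p q s (K - D) := by
    intro D hD
    rw [hs]
    exact FF_rec hd0 ht0 ht1 hcon hD
  have hU := UU_rec (K := K) (p := p) (q := q) hd0 ht0 ht1 hcon
  rw [← hs] at hU ht
  have hnn : ∀ D, 0 ≤ FF K p q s D := fun D => FF_nonneg hs0.le D
  obtain ⟨U, hUd⟩ : ∃ U, U = FF K p q s 0 := ⟨_, rfl⟩
  have hU0 : 0 ≤ U := by rw [hUd]; exact hnn 0
  -- the maximum
  obtain ⟨D0, hD0, hmax⟩ := Finset.exists_max_image (Finset.Icc 1 K) (fun D => FF K p q s D)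
    ⟨1, Finset.mem_Icc.2 ⟨le_rfl, hK⟩⟩
  rw [Finset.mem_Icc] at hD0
  obtain ⟨M, hM⟩ : ∃ M, M = FF K p q s D0 := ⟨_, rfl⟩
  rw [← hM] at hmax
  have hM0 : 0 ≤ M := by rw [hM]; exact hnn D0
  have hall : ∀ D, D ≤ K → FF K p q s D ≤ U + M := by
    intro D hD
    rcases Nat.eq_zero_or_pos D with rfl | h
    · rw [← hUd]; linarith
    · have := hmax D (Finset.mem_Icc.2 ⟨h, hD⟩)
      linarith
  have hsE : ∀ E, E ≤ K + 1 → (q : ℝ) * s ^ E ≤ 1 := by
    intro E hE
    refine le_trans ?_ hqd1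
    apply mul_le_mul_of_nonneg_left _ hq0
    calc s ^ E ≤ (d : ℝ) ^ E := pow_le_pow_left₀ hs0.le hsd E
      _ ≤ (d : ℝ) ^ (K + 1) := pow_le_pow_right₀ (by linarith) hE
  have hp0 : 0 ≤ (p : ℝ) := hp.le
  -- two steps of the recursion
  have hstep1 : M ≤ p * (U + M) + q * s ^ (K + 1 - D0) * FF K p q s (K + 1 - D0) := by
    have h1 := hrec (D0 - 1) (by omega)
    rw [show D0 - 1 + 1 = D0 by omega, ← hM, show K - (D0 - 1) = K + 1 - D0 by omega] at h1
    have h2 := mul_le_mul_of_nonneg_left (hall (D0 - 1) (by omega)) hp0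
    linarith
  have hstep2 : FF K p q s (K + 1 - D0) ≤ p * (U + M) + q * s ^ D0 * M := by
    have h1 := hrec (K - D0) (by omega)
    rw [show K - D0 + 1 = K + 1 - D0 by omega, show K - (K - D0) = D0 by omega, ← hM] at h1
    have h2 := mul_le_mul_of_nonneg_left (hall (K - D0) (by omega)) hp0
    linarith
  have hqs1 := hsE (K + 1 - D0) (by omega)
  have hqs2 : (q : ℝ) * s ^ (K + 1 - D0) * (q * s ^ D0) ≤ 1 / 4 := by
    have h1 : (q : ℝ) * s ^ (K + 1 - D0) * (q * s ^ D0) = q * (q * s ^ (K + 1)) := by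
      have : s ^ (K + 1) = s ^ (K + 1 - D0) * s ^ D0 := by
        rw [← pow_add]
        congr 1
        omega
      rw [this]
      ring
    rw [h1]
    have h2 := hsE (K + 1) le_rfl
    have h3 : 0 ≤ (q : ℝ) * s ^ (K + 1) := by positivity
    nlinarith
  have hMU : M ≤ 4 * p * U := by
    have h1 : 0 ≤ (q : ℝ) * s ^ (K + 1 - D0) := by positivity
    have h2 := mul_le_mul_of_nonneg_left hstep2 h1
    have h3 : (q : ℝ) * s ^ (K + 1 - D0) * (p * (U + M) + q * s ^ D0 * M) =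
        (q * s ^ (K + 1 - D0)) * (p * (U + M)) +
          (q * s ^ (K + 1 - D0) * (q * s ^ D0)) * M := by ring
    rw [h3] at h2
    have h4 : (q * s ^ (K + 1 - D0)) * (p * (U + M)) ≤ 1 * (p * (U + M)) :=
      mul_le_mul_of_nonneg_right hqs1 (by positivity)
    have h5 : (q * s ^ (K + 1 - D0) * (q * s ^ D0)) * M ≤ 1 / 4 * M :=
      mul_le_mul_of_nonneg_right hqs2 hM0
    have h6 : p * M ≤ 1 / 8 * M := mul_le_mul_of_nonneg_right hp8 hM0
    linarith
  have hFK : FF K p q s K ≤ 4 * p * U := by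
    have := hmax K (Finset.mem_Icc.2 ⟨hK, le_rfl⟩)
    linarith
  have hlast : p * q * s ^ (K + 1) * FF K p q s K ≤ 4 * (p : ℝ) ^ 2 * U := by
    have h1 : p * q * s ^ (K + 1) * FF K p q s K = p * ((q * s ^ (K + 1)) * FF K p q s K) := by
      ring
    rw [h1]
    have h2 : (q * s ^ (K + 1)) * FF K p q s K ≤ 1 * FF K p q s K :=
      mul_le_mul_of_nonneg_right (hsE (K + 1) le_rfl) (hnn K)
    calc (p : ℝ) * ((q * s ^ (K + 1)) * FF K p q s K) ≤ p * (4 * p * U) :=
          mul_le_mul_of_nonneg_left (by linarith) hp0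
      _ = _ := by ring
  rw [← hUd] at hU
  have h7 := mul_le_mul_of_nonneg_right ht hU0
  nlinarith

end Q291.TL
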