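import Pool.Agent.Q291.TL.Prod

/-!
Two-length oriented percolation on a line: from the vertex `n` there are a short edge to `n - 1`
and a long edge to `n - K - 1`.
-/

set_option autoImplicit false

namespace Q291.TL

open MeasureTheory ProbabilityTheory Set Measure Q291.GW

/-- The vertex `n` is connected to `0`; the bit `(j, false)` is the short edge with head `j`,
the bit `(j, true)` is the long edge with head `j`. -/
def A (K : ℕ) (x : ℕ × Bool → Bool) : ℕ → Prop
  | 0 => True
  | n + 1 => (x (n, false) = true ∧ A K x n) ∨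
      (K ≤ n ∧ x (n - K, true) = true ∧ A K x (n - K))
termination_by n => n
decreasing_by all_goals omega

theorem A_zero (K : ℕ) (x : ℕ × Bool → Bool) : A K x 0 := by
  rw [A]
  trivial

theorem A_succ (K : ℕ) (x : ℕ × Bool → Bool) (n : ℕ) : A K x (n + 1) ↔
    (x (n, false) = true ∧ A K x n) ∨ (K ≤ n ∧ x (n - K, true) = true ∧ A K x (n - K)) := by
  rw [A]

/-- The event that `n` is connected to `0`. -/
def AA (K n : ℕ) : Set (ℕ × Bool → Bool) := {x | A K x n}

/-- The bits that matter. -/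
def DD (K n : ℕ) : Set (ℕ × Bool) := {e | if e.2 = true then e.1 + K < n else e.1 < n}

theorem mem_DD_f {K n j : ℕ} : (j, false) ∈ DD K n ↔ j < n := by
  unfold DD
  simp

theorem mem_DD_t {K n j : ℕ} : (j, true) ∈ DD K n ↔ j + K < n := by
  unfold DD
  simp

theorem DD_mono {K n m : ℕ} (h : n ≤ m) : DD K n ⊆ DD K m := by
  rintro ⟨j, _ | _⟩ hj
  · rw [mem_DD_f] at hj ⊢; omega
  · rw [mem_DD_t] at hj ⊢; omega

theorem A_congr {K : ℕ} {x y : ℕ × Bool → Bool} : ∀ n, (∀ e ∈ DD K n, x e = y e) →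
    (A K x n ↔ A K y n) := by
  intro n
  induction n using Nat.strong_induction_on with
  | _ n ih =>
    intro h
    rcases n with _ | n
    · exact ⟨fun _ => A_zero _ _, fun _ => A_zero _ _⟩
    · rw [A_succ, A_succ]
      have h1 := ih n (by omega) (fun e he => h e (DD_mono (by omega) he))
      have h2 : x (n, false) = y (n, false) := h _ (by rw [mem_DD_f]; omega)
      rw [h1, h2]
      by_cases hK : K ≤ n
      · have h3 := ih (n - K) (by omega) (fun e he => h e (DD_mono (by omega) he))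
        have h4 : x (n - K, true) = y (n - K, true) := h _ (by rw [mem_DD_t]; omega)
        rw [h3, h4]
      · simp [hK]

theorem dep_AA (K n : ℕ) : DepOn (DD K n) (AA K n) := fun _ _ hab h => (A_congr n hab).1 h

theorem AA_succ_ge {K n : ℕ} (h : K ≤ n) : AA K (n + 1) =
    ({x | x (n, false) = true} ∩ AA K n) ∪ ({x | x (n - K, true) = true} ∩ AA K (n - K)) := by
  ext x
  show A K x (n + 1) ↔ _
  rw [A_succ]
  constructor
  · rintro (⟨h1, h2⟩ | ⟨_, h1, h2⟩)
    · exact Or.inl ⟨h1, h2⟩
    · exact Or.inr ⟨h1, h2⟩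
  · rintro (⟨h1, h2⟩ | ⟨h1, h2⟩)
    · exact Or.inl ⟨h1, h2⟩
    · exact Or.inr ⟨h, h1, h2⟩

theorem AA_succ_lt {K n : ℕ} (h : n < K) : AA K (n + 1) =
    {x | x (n, false) = true} ∩ AA K n := by
  ext x
  show A K x (n + 1) ↔ _
  rw [A_succ]
  constructor
  · rintro (⟨h1, h2⟩ | ⟨h0, _, _⟩)
    · exact ⟨h1, h2⟩
    · omega
  · rintro ⟨h1, h2⟩
    exact Or.inl ⟨h1, h2⟩

theorem AA_zero (K : ℕ) : AA K 0 = univ := by
  ext x
  exact ⟨fun _ => trivial, fun _ => A_zero K x⟩

theorem meas_AA (K : ℕ) : ∀ n, MeasurableSet (AA K n) := by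
  intro n
  induction n using Nat.strong_induction_on with
  | _ n ih =>
    rcases n with _ | n
    · rw [AA_zero]
      exact MeasurableSet.univ
    · rcases Nat.lt_or_ge n K with h | h
      · rw [AA_succ_lt h]
        exact (meas_bit _).inter (ih n (by omega))
      · rw [AA_succ_ge h]
        exact ((meas_bit _).inter (ih n (by omega))).union
          ((meas_bit _).inter (ih (n - K) (by omega)))

/-- The parameters. -/
def rr (p q : unitInterval) : ℕ × Bool → unitInterval := fun e => if e.2 = true then q else p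

theorem rr_f (p q : unitInterval) (j : ℕ) : rr p q (j, false) = p := by simp [rr]
theorem rr_t (p q : unitInterval) (j : ℕ) : rr p q (j, true) = q := by simp [rr]

/-- The connection probability. -/
noncomputable def uu (K : ℕ) (p q : unitInterval) (n : ℕ) : ℝ := (bits (rr p q)).real (AA K n)

/-- The joint connection probability. -/
noncomputable def JJ (K : ℕ) (p q : unitInterval) (i j : ℕ) : ℝ :=
  (bits (rr p q)).real (AA K i ∩ AA K j)

variable {K : ℕ} {p q : unitInterval}

theorem uu_zero : uu K p q 0 = 1 := by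
  unfold uu
  rw [AA_zero]
  simp

theorem uu_nonneg (n : ℕ) : 0 ≤ uu K p q n := measureReal_nonneg

theorem JJ_nonneg (i j : ℕ) : 0 ≤ JJ K p q i j := measureReal_nonneg

theorem JJ_comm (i j : ℕ) : JJ K p q i j = JJ K p q j i := by
  unfold JJ
  rw [inter_comm]

theorem JJ_le_left (i j : ℕ) : JJ K p q i j ≤ uu K p q i := measureReal_mono inter_subset_left

theorem JJ_le_right (i j : ℕ) : JJ K p q i j ≤ uu K p q j := measureReal_mono inter_subset_right

theorem JJ_self (i : ℕ) : JJ K p q i i = uu K p q i := by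
  unfold JJ uu
  rw [inter_self]

/-- One bit is independent of the later event. -/
theorem bit_indep {e : ℕ × Bool} {S : Set (ℕ × Bool)} {E : Set (ℕ × Bool → Bool)}
    (hE : MeasurableSet E) (dE : DepOn S E) (he : e ∉ S) :
    (bits (rr p q)).real ({x | x e = true} ∩ E) = (rr p q e : ℝ) * (bits (rr p q)).real E := by
  rw [bits_indep (Set.disjoint_singleton_left.2 he) (meas_bit e) hE (dep_bit e) dE, bits_coord]

theorem uu_succ_lt {n : ℕ} (h : n < K) : uu K p q (n + 1) = p * uu K p q n := by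
  unfold uu
  rw [AA_succ_lt h, bit_indep (meas_AA K n) (dep_AA K n) (by rw [mem_DD_f]; omega), rr_f]

theorem uu_succ_ge {n : ℕ} (h : K ≤ n) : uu K p q (n + 1) =
    p * uu K p q n + q * uu K p q (n - K) - p * q * JJ K p q n (n - K) := by
  have e1 : (bits (rr p q)).real ({x | x (n, false) = true} ∩ AA K n) = p * uu K p q n := by
    rw [bit_indep (meas_AA K n) (dep_AA K n) (by rw [mem_DD_f]; omega), rr_f]
    rfl
  have e2 : (bits (rr p q)).real ({x | x (n - K, true) = true} ∩ AA K (n - K)) =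
      q * uu K p q (n - K) := by
    rw [bit_indep (meas_AA K _) (dep_AA K _) (by rw [mem_DD_t]; omega), rr_t]
    rfl
  have e3 : (bits (rr p q)).real (({x | x (n, false) = true} ∩ AA K n) ∩
      ({x | x (n - K, true) = true} ∩ AA K (n - K))) = p * q * JJ K p q n (n - K) := by
    have h1 : ({x : ℕ × Bool → Bool | x (n, false) = true} ∩ AA K n) ∩
        ({x | x (n - K, true) = true} ∩ AA K (n - K)) =
        {x | x (n, false) = true} ∩ ({x | x (n - K, true) = true} ∩
          (AA K n ∩ AA K (n - K))) := by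
      ext x
      simp only [mem_inter_iff]
      tauto
    rw [h1, bit_indep (S := {(n - K, true)} ∪ (DD K n ∪ DD K (n - K)))
      ((meas_bit _).inter ((meas_AA K _).inter (meas_AA K _)))
      (dep_inter (dep_bit _) (dep_inter (dep_AA K _) (dep_AA K _))) (by
        rw [mem_union, mem_union, mem_DD_f, mem_DD_f, mem_singleton_iff]
        simp), bit_indep (S := DD K n ∪ DD K (n - K))
      ((meas_AA K _).inter (meas_AA K _)) (dep_inter (dep_AA K _) (dep_AA K _)) (by
        rw [mem_union, mem_DD_t, mem_DD_t]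
        omega), rr_f, rr_t]
    unfold JJ
    ring
  have h2 := measureReal_union_add_inter (μ := bits (rr p q))
    (s := {x | x (n, false) = true} ∩ AA K n) (t := {x | x (n - K, true) = true} ∩ AA K (n - K))
    ((meas_bit _).inter (meas_AA K _))
  rw [e1, e2, e3, ← AA_succ_ge h] at h2
  have h3 : (bits (rr p q)).real (AA K (n + 1)) = uu K p q (n + 1) := rfl
  rw [h3] at h2
  linarith

theorem JJ_succ_lt {i j : ℕ} (h : i < K) (hj : j ≤ i) :
    JJ K p q (i + 1) j ≤ p * JJ K p q i j := by
  unfold JJ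
  rw [AA_succ_lt h, inter_assoc, bit_indep (S := DD K i ∪ DD K j)
    ((meas_AA K _).inter (meas_AA K _)) (dep_inter (dep_AA K _) (dep_AA K _)) (by
      rw [mem_union, mem_DD_f, mem_DD_f]; omega), rr_f]

theorem JJ_succ_ge {i j : ℕ} (h : K ≤ i) (hj : j ≤ i) :
    JJ K p q (i + 1) j ≤ p * JJ K p q i j + q * JJ K p q (i - K) j := by
  have e1 : (bits (rr p q)).real ({x | x (i, false) = true} ∩ (AA K i ∩ AA K j)) =
      p * JJ K p q i j := by
    rw [bit_indep (S := DD K i ∪ DD K j)
      ((meas_AA K _).inter (meas_AA K _)) (dep_inter (dep_AA K _) (dep_AA K _)) (by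
        rw [mem_union, mem_DD_f, mem_DD_f]; omega), rr_f]
    rfl
  have e2 : (bits (rr p q)).real ({x | x (i - K, true) = true} ∩ (AA K (i - K) ∩ AA K j)) =
      q * JJ K p q (i - K) j := by
    rw [bit_indep (S := DD K (i - K) ∪ DD K j)
      ((meas_AA K _).inter (meas_AA K _)) (dep_inter (dep_AA K _) (dep_AA K _)) (by
        rw [mem_union, mem_DD_t, mem_DD_t]; omega), rr_t]
    rfl
  rw [← e1, ← e2]
  unfold JJ
  refine le_trans (measureReal_mono ?_) (measureReal_union_le _ _)
  rw [AA_succ_ge h]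
  rintro x ⟨⟨h1, h2⟩ | ⟨h1, h2⟩, h3⟩
  · exact Or.inl ⟨h1, h2, h3⟩
  · exact Or.inr ⟨h1, h2, h3⟩

/-- The short edges between the heads `m` and `m + K`. -/
def sh (K m : ℕ) : Finset (ℕ × Bool) := (Finset.Icc m (m + K)).image (fun j => (j, false))

theorem A_short {x : ℕ × Bool → Bool} {m : ℕ} (h0 : A K x m) : ∀ t : ℕ,
    (∀ j, m ≤ j → j < m + t → x (j, false) = true) → A K x (m + t) := by
  intro t
  induction t with
  | zero => intro _; exact h0
  | succ t ih =>
    intro h
    have h1 := ih (fun j h2 h3 => h j h2 (by omega))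
    rw [← Nat.add_assoc, A_succ]
    exact Or.inl ⟨h _ (by omega) (by omega), h1⟩

theorem uu_upper {n : ℕ} (h : K ≤ n) : uu K p q (n + 1) ≤
    p * uu K p q n + q * (1 - (p : ℝ) ^ (K + 1)) * uu K p q (n - K) := by
  have hsh : ∀ e ∈ sh K (n - K), e.2 = false ∧ n - K ≤ e.1 ∧ e.1 ≤ n := by
    intro e he
    unfold sh at he
    obtain ⟨j, hj, rfl⟩ := Finset.mem_image.1 he
    rw [Finset.mem_Icc] at hj
    exact ⟨rfl, hj.1, by omega⟩
  have e1 : (bits (rr p q)).real ({x | x (n, false) = true} ∩ AA K n) = p * uu K p q n := by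
    rw [bit_indep (meas_AA K n) (dep_AA K n) (by rw [mem_DD_f]; omega), rr_f]
    rfl
  have e4 : (bits (rr p q)).real {x | ∀ e ∈ sh K (n - K), x e = true} = (p : ℝ) ^ (K + 1) := by
    rw [bits_all]
    unfold sh
    rw [Finset.prod_image (by intro x _ y _ hxy; exact (Prod.mk.injEq _ _ _ _ ▸ hxy).1)]
    rw [Finset.prod_congr rfl (fun j _ => by rw [rr_f]), Finset.prod_const, Nat.card_Icc]
    congr 1
    omega
  have e3 : (bits (rr p q)).real (AA K (n - K) ∩ {x | ∀ e ∈ sh K (n - K), x e = true}ᶜ) =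
      uu K p q (n - K) * (1 - (p : ℝ) ^ (K + 1)) := by
    rw [bits_indep (S := DD K (n - K)) (T := ↑(sh K (n - K))) ?_ (meas_AA K _)
      (meas_all _).compl (dep_AA K _) (dep_compl (dep_all _)),
      probReal_compl_eq_one_sub (meas_all _), e4]
    · rfl
    · rw [Set.disjoint_left]
      rintro ⟨j, b⟩ h1 h2
      obtain ⟨h3, h4, h5⟩ := hsh _ (Finset.mem_coe.1 h2)
      simp only at h3 h4
      subst h3
      rw [mem_DD_f] at h1
      omega
  have e2 : (bits (rr p q)).real ({x | x (n - K, true) = true} ∩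
      (AA K (n - K) ∩ {x | ∀ e ∈ sh K (n - K), x e = true}ᶜ)) =
      q * (uu K p q (n - K) * (1 - (p : ℝ) ^ (K + 1))) := by
    rw [bit_indep (S := DD K (n - K) ∪ ↑(sh K (n - K)))
      ((meas_AA K _).inter (meas_all _).compl) (dep_inter (dep_AA K _) (dep_compl (dep_all _))) (by
        rw [mem_union, mem_DD_t]
        rintro (h1 | h1)
        · omega
        · have := (hsh _ (Finset.mem_coe.1 h1)).1
          simp at this), rr_t, e3]
  have e5 : q * (1 - (p : ℝ) ^ (K + 1)) * uu K p q (n - K) =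
      q * (uu K p q (n - K) * (1 - (p : ℝ) ^ (K + 1))) := by ring
  rw [e5, ← e1, ← e2]
  have h6 : uu K p q (n + 1) = (bits (rr p q)).real (AA K (n + 1)) := rfl
  rw [h6]
  refine le_trans (measureReal_mono ?_) (measureReal_union_le _ _)
  rw [AA_succ_ge h]
  rintro x (⟨h1, h2⟩ | ⟨h1, h2⟩)
  · exact Or.inl ⟨h1, h2⟩
  · by_cases h3 : ∀ e ∈ sh K (n - K), x e = true
    · left
      have h4 : ∀ j, n - K ≤ j → j ≤ n → x (j, false) = true := by
        intro j hj1 hj2
        apply h3
        unfold sh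
        rw [Finset.mem_image]
        exact ⟨j, Finset.mem_Icc.2 ⟨hj1, by omega⟩, rfl⟩
      refine ⟨h4 n (by omega) le_rfl, ?_⟩
      have h5 := A_short h2 K (fun j hj1 hj2 => h4 j hj1 (by omega))
      rw [Nat.sub_add_cancel h] at h5
      exact h5
    · exact Or.inr ⟨h1, h2, h3⟩

end Q291.TL
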