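import Pool.Agent.Q291.GW.Indep

/-!
Independent bits.
-/

set_option autoImplicit false

namespace Q291.TL

open MeasureTheory ProbabilityTheory Set Measure Q291.GW

/-- Reindexing along an injection. -/
theorem reindex {ι κ X : Type*} [MeasurableSpace X] (μ : ι → Measure X)
    [∀ i, IsProbabilityMeasure (μ i)] (φ : κ → ι) (hφ : Function.Injective φ) :
    (infinitePi μ).map (fun (ω : ι → X) (j : κ) => ω (φ j)) = infinitePi (fun j => μ (φ j)) := by
  classical
  refine eq_infinitePi (fun j => μ (φ j)) ?_
  intro s t ht
  have hm : Measurable (fun (ω : ι → X) (j : κ) => ω (φ j)) := by fun_prop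
  rw [Measure.map_apply hm (MeasurableSet.pi s.countable_toSet (fun j _ => ht j))]
  obtain ⟨t', ht'⟩ : ∃ t' : ι → Set X, t' = fun i => if h : ∃ j, φ j = i then t h.choose
      else univ := ⟨_, rfl⟩
  have h1 : ∀ j, t' (φ j) = t j := by
    intro j
    have hex : ∃ j', φ j' = φ j := ⟨j, rfl⟩
    rw [ht']
    simp only [dif_pos hex]
    rw [hφ hex.choose_spec]
  have h2 : (fun (ω : ι → X) (j : κ) => ω (φ j)) ⁻¹' (↑s : Set κ).pi t =
      (↑(s.image φ) : Set ι).pi t' := by
    ext ω
    simp only [mem_preimage, Set.mem_pi, Finset.coe_image, Set.mem_image, Finset.mem_coe]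
    constructor
    · rintro h i ⟨j, hj, rfl⟩
      rw [h1]
      exact h j hj
    · intro h j hj
      have := h (φ j) ⟨j, hj, rfl⟩
      rwa [h1] at this
  rw [h2, infinitePi_pi, Finset.prod_image (fun x _ y _ hxy => hφ hxy)]
  · apply Finset.prod_congr rfl
    intro j _
    rw [h1]
  · intro i hi
    obtain ⟨j, _, rfl⟩ := Finset.mem_image.1 hi
    rw [h1]
    exact ht j

/-- Independent bits, `true` with probabilities `r`. -/
noncomputable def bits {ι : Type*} (r : ι → unitInterval) : Measure (ι → Bool) :=
  infinitePi fun i => bernoulliMeasure true false (r i)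

instance {ι : Type*} (r : ι → unitInterval) : IsProbabilityMeasure (bits r) := by
  unfold bits
  infer_instance

variable {ι : Type*} {r : ι → unitInterval}

theorem bits_coord (i : ι) : (bits r).real {ω | ω i = true} = r i := by
  have h1 : (bits r).map (fun ω => ω i) = bernoulliMeasure true false (r i) := by
    unfold bits
    exact infinitePi_map_eval (fun i => bernoulliMeasure true false (r i)) i
  have h2 : (bits r).real {ω | ω i = true} = ((bits r).map (fun ω => ω i)).real {true} := by
    rw [map_measureReal_apply (by fun_prop) (measurableSet_singleton _)]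
    rfl
  rw [h2, h1, measureReal_def]
  rw [bernoulliMeasure_apply_of_mem_of_notMem _ (measurableSet_singleton _) (by simp) (by simp)]
  simp

theorem bits_reindex {κ : Type*} (φ : κ → ι) (hφ : Function.Injective φ) :
    (bits r).map (fun (ω : ι → Bool) (j : κ) => ω (φ j)) = bits (fun j => r (φ j)) := by
  unfold bits
  exact reindex (fun i => bernoulliMeasure true false (r i)) φ hφ

theorem bits_indep {S T : Set ι} (hST : Disjoint S T) {E F : Set (ι → Bool)}
    (hE : MeasurableSet E) (hF : MeasurableSet F) (dE : DepOn S E) (dF : DepOn T F) :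
    (bits r).real (E ∩ F) = (bits r).real E * (bits r).real F := by
  rw [measureReal_def, measureReal_def, measureReal_def, ← ENNReal.toReal_mul]
  congr 1
  unfold bits
  exact indep_dep (fun i => bernoulliMeasure true false (r i)) hST hE hF dE dF

theorem meas_bit (i : ι) : MeasurableSet {ω : ι → Bool | ω i = true} := by
  have h : Measurable (fun ω : ι → Bool => ω i) := measurable_pi_apply i
  exact h (measurableSet_singleton true)

theorem dep_bit (i : ι) : DepOn {i} {ω : ι → Bool | ω i = true} := by
  intro a b hab h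
  have h1 := hab i (mem_singleton i)
  show b i = true
  rw [← h1]
  exact h

theorem dep_inter {S T : Set ι} {E F : Set (ι → Bool)} (hE : DepOn S E) (hF : DepOn T F) :
    DepOn (S ∪ T) (E ∩ F) := by
  intro a b hab h
  exact ⟨hE a b (fun i hi => hab i (Or.inl hi)) h.1, hF a b (fun i hi => hab i (Or.inr hi)) h.2⟩

theorem dep_union {S T : Set ι} {E F : Set (ι → Bool)} (hE : DepOn S E) (hF : DepOn T F) :
    DepOn (S ∪ T) (E ∪ F) := by
  intro a b hab h
  rcases h with h | h
  · exact Or.inl (hE a b (fun i hi => hab i (Or.inl hi)) h)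
  · exact Or.inr (hF a b (fun i hi => hab i (Or.inr hi)) h)

theorem dep_compl {S : Set ι} {E : Set (ι → Bool)} (hE : DepOn S E) : DepOn S Eᶜ := by
  intro a b hab h hb
  exact h (hE b a (fun i hi => (hab i hi).symm) hb)

theorem bits_all (s : Finset ι) :
    (bits r).real {ω | ∀ i ∈ s, ω i = true} = ∏ i ∈ s, (r i : ℝ) := by
  have h1 : {ω : ι → Bool | ∀ i ∈ s, ω i = true} = (↑s : Set ι).pi (fun _ => {true}) := by
    ext ω
    simp only [Set.mem_pi, Finset.mem_coe, mem_singleton_iff]
    exact Iff.rfl
  rw [h1, measureReal_def]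
  unfold bits
  rw [infinitePi_pi (fun i => bernoulliMeasure true false (r i))
    (fun i _ => measurableSet_singleton true), ENNReal.toReal_prod]
  apply Finset.prod_congr rfl
  intro i _
  rw [bernoulliMeasure_apply_of_mem_of_notMem _ (measurableSet_singleton _) (by simp) (by simp)]
  simp

theorem meas_all (s : Finset ι) : MeasurableSet {ω : ι → Bool | ∀ i ∈ s, ω i = true} := by
  have h1 : {ω : ι → Bool | ∀ i ∈ s, ω i = true} = ⋂ i ∈ s, {ω | ω i = true} := by
    ext ω
    simp only [mem_iInter]
    exact Iff.rfl
  rw [h1]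
  exact Finset.measurableSet_biInter s (fun i _ => meas_bit i)

theorem dep_all (s : Finset ι) : DepOn (↑s : Set ι) {ω : ι → Bool | ∀ i ∈ s, ω i = true} := by
  intro a b hab h i hi
  rw [← hab i (Finset.mem_coe.2 hi)]
  exact h i hi

end Q291.TL
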