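import Pool.Agent.Q291.TL.Tree

/-!
Absence of percolation when the mean is small.
-/

set_option autoImplicit false

namespace Q291.TL

open MeasureTheory ProbabilityTheory Set Measure Q291.GW Filter

variable {d : ℕ}

/-- The `n`-th level is reached. -/
def Hit (d K n : ℕ) : Set (List (Fin d) × Bool → Bool) :=
  ⋃ w ∈ lv d n, {ω | Conn (K + 1) ω [] w}

theorem hit_le {K n : ℕ} {p q : unitInterval} :
    (law d p q).real (Hit d K n) ≤ (d : ℝ) ^ n * uu K p q n := by
  unfold Hit
  refine (measureReal_biUnion_finset_le _ _).trans ?_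
  have h1 : ∀ w ∈ lv d n, (law d p q).real {ω | Conn (K + 1) ω [] w} = uu K p q n := by
    intro w hw
    have h2 := prob_conn' (K := K) (p := p) (q := q) w []
    rw [List.append_nil, mem_lv.1 hw] at h2
    exact h2
  rw [Finset.sum_congr rfl h1, Finset.sum_const, card_lv, nsmul_eq_mul]
  push_cast
  exact le_rfl

theorem inf_sub {K : ℕ} :
    {ω : List (Fin d) × Bool → Bool | {w | Conn (K + 1) ω [] w}.Infinite} ⊆
      limsup (fun n => Hit d K n) atTop := by
  intro ω hω
  rw [mem_limsup_iff_frequently_mem]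
  by_contra hcon
  rw [Filter.not_frequently, Filter.eventually_atTop] at hcon
  obtain ⟨N, hN⟩ := hcon
  apply hω
  refine Set.Finite.subset ((Finset.range N).biUnion (fun n => lv d n)).finite_toSet ?_
  intro w hw
  rw [Finset.mem_coe, Finset.mem_biUnion]
  refine ⟨w.length, ?_, mem_lv.2 rfl⟩
  rw [Finset.mem_range]
  by_contra hc
  refine hN w.length (by omega) ?_
  unfold Hit
  rw [mem_iUnion₂]
  exact ⟨w, mem_lv.2 rfl, hw⟩

theorem sum_bound {K : ℕ} {p q : unitInterval}
    (h : (p : ℝ) * d + q * (1 - (p : ℝ) ^ (K + 1)) * (d : ℝ) ^ (K + 1) < 1) (N : ℕ) :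
    ∑ n ∈ Finset.range N, (d : ℝ) ^ n * uu K p q n ≤
      1 / (1 - ((p : ℝ) * d + q * (1 - (p : ℝ) ^ (K + 1)) * (d : ℝ) ^ (K + 1))) := by
  obtain ⟨y, hy⟩ : ∃ y : ℕ → ℝ, y = fun n => (d : ℝ) ^ n * uu K p q n := ⟨_, rfl⟩
  obtain ⟨a, ha⟩ : ∃ a : ℝ, a = (p : ℝ) * d := ⟨_, rfl⟩
  obtain ⟨b, hb⟩ : ∃ b : ℝ, b = q * (1 - (p : ℝ) ^ (K + 1)) * (d : ℝ) ^ (K + 1) := ⟨_, rfl⟩
  have hy0 : ∀ n, 0 ≤ y n := fun n => by
    rw [hy]
    exact mul_nonneg (by positivity) (uu_nonneg n)
  have ha0 : 0 ≤ a := by rw [ha]; exact mul_nonneg p.2.1 (by positivity)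
  have hb0 : 0 ≤ b := by
    rw [hb]
    refine mul_nonneg (mul_nonneg q.2.1 ?_) (by positivity)
    have := pow_le_one₀ (n := K + 1) p.2.1 p.2.2
    linarith
  have hrec : ∀ n, y (n + 1) ≤ a * y n + b * (if K ≤ n then y (n - K) else 0) := by
    intro n
    rw [hy]
    simp only
    by_cases hc : K ≤ n
    · rw [if_pos hc]
      have h1 := mul_le_mul_of_nonneg_left (uu_upper (p := p) (q := q) hc)
        (show (0:ℝ) ≤ (d : ℝ) ^ (n + 1) by positivity)
      refine h1.trans (le_of_eq ?_)
      have h2 : (d : ℝ) ^ (n + 1) = (d : ℝ) ^ (K + 1) * (d : ℝ) ^ (n - K) := by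
        rw [← pow_add]
        congr 1
        omega
      have h3 : (d : ℝ) ^ (n + 1) = d * (d : ℝ) ^ n := by rw [pow_succ]; ring
      rw [mul_add]
      congr 1
      · rw [h3, ha]; ring
      · rw [h2, hb]; ring
    · rw [if_neg hc, uu_succ_lt (by omega), mul_zero, add_zero, ha, pow_succ]
      apply le_of_eq
      ring
  have hshift : ∀ M, ∑ n ∈ Finset.range M, (if K ≤ n then y (n - K) else 0) ≤
      ∑ n ∈ Finset.range M, y n := by
    intro M
    rw [← Finset.sum_filter]
    have h1 : ∑ n ∈ (Finset.range M).filter (fun n => K ≤ n), y (n - K) =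
        ∑ j ∈ ((Finset.range M).filter (fun n => K ≤ n)).image (fun n => n - K), y j := by
      rw [Finset.sum_image]
      intro x hx x' hx' hxx
      rw [Finset.mem_coe, Finset.mem_filter] at hx hx'
      simp only at hxx
      omega
    rw [h1]
    apply Finset.sum_le_sum_of_subset_of_nonneg
    · intro j hj
      obtain ⟨n, hn, rfl⟩ := Finset.mem_image.1 hj
      rw [Finset.mem_filter, Finset.mem_range] at hn
      rw [Finset.mem_range]
      omega
    · intro j _ _
      exact hy0 j
  have h' : a + b < 1 := by rw [ha, hb]; exact h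
  have key : ∀ M, ∑ n ∈ Finset.range M, y n ≤ 1 / (1 - (a + b)) := by
    intro M
    induction M with
    | zero =>
      rw [Finset.range_zero, Finset.sum_empty]
      have : 0 < 1 - (a + b) := by linarith
      positivity
    | succ M ih =>
      rw [Finset.sum_range_succ']
      have h0 : y 0 = 1 := by rw [hy]; simp [uu_zero]
      have h1 : ∑ n ∈ Finset.range M, y (n + 1) ≤ (a + b) * (1 / (1 - (a + b))) := by
        calc ∑ n ∈ Finset.range M, y (n + 1) ≤
              ∑ n ∈ Finset.range M, (a * y n + b * (if K ≤ n then y (n - K) else 0)) :=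
              Finset.sum_le_sum fun n _ => hrec n
          _ = a * ∑ n ∈ Finset.range M, y n +
              b * ∑ n ∈ Finset.range M, (if K ≤ n then y (n - K) else 0) := by
              rw [Finset.sum_add_distrib, ← Finset.mul_sum, ← Finset.mul_sum]
          _ ≤ a * ∑ n ∈ Finset.range M, y n + b * ∑ n ∈ Finset.range M, y n :=
              add_le_add le_rfl (mul_le_mul_of_nonneg_left (hshift M) hb0)
          _ = (a + b) * ∑ n ∈ Finset.range M, y n := by ring
          _ ≤ _ := mul_le_mul_of_nonneg_left ih (by linarith)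
      rw [h0]
      have h2 : 0 < 1 - (a + b) := by linarith
      have h3 : (a + b) * (1 / (1 - (a + b))) + 1 = 1 / (1 - (a + b)) := by
        field_simp
        ring
      linarith
  have := key N
  rw [hy, ha, hb] at this
  exact this

/-- No percolation. -/
theorem theta_zero {K : ℕ} {p q : unitInterval}
    (h : (p : ℝ) * d + q * (1 - (p : ℝ) ^ (K + 1)) * (d : ℝ) ^ (K + 1) < 1) :
    theta d (K + 1) p q = 0 := by
  have hs : Summable (fun n => (d : ℝ) ^ n * uu K p q n) :=
    summable_of_sum_range_le (fun n => mul_nonneg (by positivity) (uu_nonneg n))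
      (fun N => sum_bound h N)
  have h1 : ∑' n, (law d p q) (Hit d K n) ≠ ⊤ := by
    refine ne_top_of_le_ne_top hs.tsum_ofReal_ne_top (ENNReal.tsum_le_tsum fun n => ?_)
    rw [← ofReal_measureReal]
    exact ENNReal.ofReal_le_ofReal hit_le
  have h2 := measure_limsup_atTop_eq_zero h1
  unfold theta
  rw [measureReal_def, measure_mono_null inf_sub h2]
  rfl

end Q291.TL
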