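import Pool.Agent.Q291.TL.Tree

/-!
Percolation when the mean number of vertices of some level is larger than one.
-/

set_option autoImplicit false

namespace Q291.TL

open MeasureTheory ProbabilityTheory Set Measure Q291.GW Filter Topology

variable {d : ℕ}

/-- The vertex `v` reaches the levels `m`, `2 m`, …, `j m` below it, one after the other. -/
def RR (d K m : ℕ) : ℕ → List (Fin d) → Set (List (Fin d) × Bool → Bool)
  | 0, _ => univ
  | j + 1, v => ⋃ u ∈ lv d m, ({ω | Conn (K + 1) ω v (u ++ v)} ∩ RR d K m j (u ++ v))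

theorem RR_succ (K m j : ℕ) (v : List (Fin d)) : RR d K m (j + 1) v =
    ⋃ u ∈ lv d m, ({ω | Conn (K + 1) ω v (u ++ v)} ∩ RR d K m j (u ++ v)) := rfl

theorem meas_RR (K m : ℕ) : ∀ j (v : List (Fin d)), MeasurableSet (RR d K m j v) := by
  intro j
  induction j with
  | zero => intro v; exact MeasurableSet.univ
  | succ j ih =>
    intro v
    rw [RR_succ]
    exact Finset.measurableSet_biUnion _ fun u _ => (meas_conn' u v).inter (ih _)

theorem RR_sft (K m : ℕ) : ∀ j (v : List (Fin d)), RR d K m j v = sft v ⁻¹' (RR d K m j []) := by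
  intro j
  induction j with
  | zero => intro v; rfl
  | succ j ih =>
    intro v
    ext ω
    rw [RR_succ, mem_preimage, RR_succ, mem_iUnion₂, mem_iUnion₂]
    refine exists_congr fun u => exists_congr fun _ => ?_
    rw [mem_inter_iff, mem_inter_iff]
    refine and_congr ?_ ?_
    · have h1 := conn_sft (k := K + 1) (ω := ω) (u := u) (v := v)
      have h2 : Conn (K + 1) (sft v ω) [] (u ++ []) ↔ Conn (K + 1) ω v (u ++ v) := by
        rw [List.append_nil]
        exact h1
      exact h2.symm
    · rw [ih (u ++ v), ih (u ++ []), mem_preimage, mem_preimage]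
      have h3 : sft (u ++ []) (sft v ω) = sft (u ++ v) ω := by
        funext e
        unfold sft
        simp only
        rw [List.append_nil, List.append_assoc]
      rw [h3]

/-- The probability of reaching `j` levels. -/
noncomputable def rho (d K m : ℕ) (p q : unitInterval) (j : ℕ) : ℝ :=
  (law d p q).real (RR d K m j [])

theorem prob_RR {K m : ℕ} {p q : unitInterval} (j : ℕ) (v : List (Fin d)) :
    (law d p q).real (RR d K m j v) = rho d K m p q j := by
  rw [RR_sft]
  unfold rho
  conv_rhs => rw [← law_sft p q v]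
  rw [map_measureReal_apply (meas_sft v) (meas_RR K m j [])]

theorem dep_RR (K m : ℕ) : ∀ j (v : List (Fin d)),
    DepOn {e : List (Fin d) × Bool | ∃ t : List (Fin d), t ≠ [] ∧ e.1 = t ++ v}
      (RR d K m j v) := by
  intro j
  induction j with
  | zero => intro v a b _ _; exact mem_univ _
  | succ j ih =>
    intro v a b hab h
    rw [RR_succ, mem_iUnion₂] at h ⊢
    obtain ⟨u, hu, h1, h2⟩ := h
    refine ⟨u, hu, ?_, ?_⟩
    · refine dep_conn u v a b ?_ h1
      rintro e ⟨t, ht, _, he⟩
      exact hab e ⟨t, ht, he⟩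
    · refine ih (u ++ v) a b ?_ h2
      rintro e ⟨t, ht, he⟩
      refine hab e ⟨t ++ u, ?_, by rw [he, List.append_assoc]⟩
      intro hc
      exact ht (List.append_eq_nil_iff.1 hc).1

theorem RR_anti (K m : ℕ) : ∀ j (v : List (Fin d)), RR d K m (j + 1) v ⊆ RR d K m j v := by
  intro j
  induction j with
  | zero => intro v; exact subset_univ _
  | succ j ih =>
    intro v ω h
    rw [RR_succ, mem_iUnion₂] at h ⊢
    obtain ⟨u, hu, h1, h2⟩ := h
    exact ⟨u, hu, h1, ih _ h2⟩

theorem rho_anti {K m : ℕ} {p q : unitInterval} (j : ℕ) :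
    rho d K m p q (j + 1) ≤ rho d K m p q j := measureReal_mono (RR_anti K m j [])

/-- A lower bound for the probability of a union. -/
theorem bonf {Ω ι : Type*} [MeasurableSpace Ω] [DecidableEq ι] (μ : Measure Ω)
    [IsProbabilityMeasure μ] (E : ι → Set Ω) (hE : ∀ i, MeasurableSet (E i)) (B : ℝ)
    (s : Finset ι) (hB : ∀ i ∈ s, ∀ j ∈ s, i ≠ j → μ.real (E i ∩ E j) ≤ B) (hB0 : 0 ≤ B) :
    ∑ i ∈ s, μ.real (E i) - (s.card : ℝ) ^ 2 * B ≤ μ.real (⋃ i ∈ s, E i) := by
  induction s using Finset.induction_on with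
  | empty => simp
  | insert a s ha ih =>
    have ih' := ih (fun i hi j hj hij => hB i (Finset.mem_insert_of_mem hi) j
      (Finset.mem_insert_of_mem hj) hij)
    have hU : MeasurableSet (⋃ i ∈ s, E i) := Finset.measurableSet_biUnion s fun i _ => hE i
    have h1 := measureReal_union_add_inter (μ := μ) (s := E a) (t := ⋃ i ∈ s, E i) hU
      (measure_ne_top _ _) (measure_ne_top _ _)
    have h2 : μ.real (E a ∩ ⋃ i ∈ s, E i) ≤ s.card * B := by
      have h3 : E a ∩ ⋃ i ∈ s, E i = ⋃ i ∈ s, (E a ∩ E i) := by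
        ext ω
        simp only [mem_inter_iff, mem_iUnion]
        constructor
        · rintro ⟨h4, i, hi, h5⟩
          exact ⟨i, hi, h4, h5⟩
        · rintro ⟨i, hi, h4, h5⟩
          exact ⟨h4, i, hi, h5⟩
      rw [h3]
      refine (measureReal_biUnion_finset_le _ _).trans ?_
      rw [← nsmul_eq_mul, ← Finset.sum_const]
      apply Finset.sum_le_sum
      intro i hi
      exact hB a (Finset.mem_insert_self _ _) i (Finset.mem_insert_of_mem hi)
        (fun h => ha (h ▸ hi))
    have h4 : ⋃ i ∈ insert a s, E i = E a ∪ ⋃ i ∈ s, E i := by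
      ext ω
      simp only [mem_iUnion, Finset.mem_insert, mem_union]
      constructor
      · rintro ⟨i, rfl | hi, h5⟩
        · exact Or.inl h5
        · exact Or.inr ⟨i, hi, h5⟩
      · rintro (h5 | ⟨i, hi, h5⟩)
        · exact ⟨a, Or.inl rfl, h5⟩
        · exact ⟨i, Or.inr hi, h5⟩
    rw [h4, Finset.sum_insert ha, Finset.card_insert_of_notMem ha]
    push_cast
    have h5 : (0 : ℝ) ≤ s.card := by positivity
    nlinarith

theorem rho_rec {K m : ℕ} {p q : unitInterval} (j : ℕ) :
    (d : ℝ) ^ m * uu K p q m * rho d K m p q j - ((d : ℝ) ^ m) ^ 2 * rho d K m p q j ^ 2 ≤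
      rho d K m p q (j + 1) := by
  classical
  have h0 : rho d K m p q (j + 1) = (law d p q).real (⋃ u ∈ lv d m,
      ({ω : List (Fin d) × Bool → Bool | Conn (K + 1) ω [] (u ++ [])} ∩
        RR d K m j (u ++ []))) := rfl
  have h1 : ∀ u ∈ lv d m, (law d p q).real
      ({ω : List (Fin d) × Bool → Bool | Conn (K + 1) ω [] (u ++ [])} ∩ RR d K m j (u ++ [])) =
      uu K p q m * rho d K m p q j := by
    intro u hu
    rw [law_eq, bits_indep ?_ (meas_conn' u []) (meas_RR K m j _) (dep_conn u [])
      (dep_RR K m j _), ← law_eq, prob_conn', prob_RR, mem_lv.1 hu]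
    rw [Set.disjoint_left]
    rintro e ⟨t, _, ht, he⟩ ⟨t', ht', he'⟩
    rw [he] at he'
    have := congrArg List.length he'
    simp only [List.length_append, List.length_nil] at this
    have h3 : t'.length ≠ 0 := fun hc => ht' (List.length_eq_zero_iff.1 hc)
    omega
  have h2 := bonf (law d p q) (fun u : List (Fin d) =>
    {ω : List (Fin d) × Bool → Bool | Conn (K + 1) ω [] (u ++ [])} ∩ RR d K m j (u ++ []))
    (fun u => (meas_conn' u []).inter (meas_RR K m j _)) (rho d K m p q j ^ 2) (lv d m) (by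
      intro u hu u' hu' huu
      refine (measureReal_mono (s₂ := RR d K m j (u ++ []) ∩ RR d K m j (u' ++ [])) (by
        rintro ω ⟨⟨_, h3⟩, ⟨_, h4⟩⟩
        exact ⟨h3, h4⟩)).trans (le_of_eq ?_)
      rw [law_eq, bits_indep ?_ (meas_RR K m j _) (meas_RR K m j _) (dep_RR K m j _)
        (dep_RR K m j _), ← law_eq, prob_RR, prob_RR, sq]
      rw [Set.disjoint_left]
      rintro e ⟨t, _, he⟩ ⟨t', _, he'⟩
      rw [he, List.append_nil, List.append_nil] at he'
      apply huu
      exact (List.append_inj' he' (by rw [mem_lv.1 hu, mem_lv.1 hu'])).2) (sq_nonneg _)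
  rw [← h0, Finset.sum_congr rfl h1, Finset.sum_const, card_lv, nsmul_eq_mul] at h2
  push_cast at h2
  calc _ = (d : ℝ) ^ m * (uu K p q m * rho d K m p q j) -
        ((d : ℝ) ^ m) ^ 2 * rho d K m p q j ^ 2 := by ring
    _ ≤ _ := h2

theorem rho_pos {K m : ℕ} {p q : unitInterval} (hd : 1 ≤ d) (hu : 0 < uu K p q m) :
    ∀ j, 0 < rho d K m p q j := by
  intro j
  induction j with
  | zero =>
    unfold rho
    have : RR d K m 0 ([] : List (Fin d)) = univ := rfl
    rw [this]
    simp
  | succ j ih =>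
    have hne : (lv d m).Nonempty := by
      rw [← Finset.card_pos, card_lv]
      exact Nat.pow_pos (by omega)
    obtain ⟨u, hul⟩ := hne
    have h1 : (law d p q).real
        ({ω : List (Fin d) × Bool → Bool | Conn (K + 1) ω [] (u ++ [])} ∩ RR d K m j (u ++ [])) =
        uu K p q m * rho d K m p q j := by
      rw [law_eq, bits_indep ?_ (meas_conn' u []) (meas_RR K m j _) (dep_conn u [])
        (dep_RR K m j _), ← law_eq, prob_conn', prob_RR, mem_lv.1 hul]
      rw [Set.disjoint_left]
      rintro e ⟨t, _, ht, he⟩ ⟨t', ht', he'⟩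
      rw [he] at he'
      have := congrArg List.length he'
      simp only [List.length_append, List.length_nil] at this
      have h3 : t'.length ≠ 0 := fun hc => ht' (List.length_eq_zero_iff.1 hc)
      omega
    have h2 : uu K p q m * rho d K m p q j ≤ rho d K m p q (j + 1) := by
      rw [← h1]
      refine measureReal_mono ?_ (measure_ne_top _ _)
      intro ω hω
      rw [RR_succ, mem_iUnion₂]
      exact ⟨u, hul, hω⟩
    exact lt_of_lt_of_le (mul_pos hu ih) h2

theorem rho_ge {K m : ℕ} {p q : unitInterval} (hd : 1 ≤ d)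
    (hX : 1 < (d : ℝ) ^ m * uu K p q m) (j : ℕ) :
    ((d : ℝ) ^ m * uu K p q m - 1) / ((d : ℝ) ^ m) ^ 2 ≤ rho d K m p q j := by
  have hd0 : (0 : ℝ) < (d : ℝ) ^ m := by
    have : (0 : ℝ) < d := by exact_mod_cast hd
    positivity
  have hu : 0 < uu K p q m := by
    by_contra hc
    push Not at hc
    have := mul_nonpos_of_nonneg_of_nonpos hd0.le hc
    linarith
  by_contra hc
  push Not at hc
  rw [lt_div_iff₀ (by positivity)] at hc
  have h1 := rho_rec (d := d) (K := K) (m := m) (p := p) (q := q) j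
  have h2 := rho_anti (d := d) (K := K) (m := m) (p := p) (q := q) j
  have h3 := rho_pos (d := d) (K := K) (m := m) (p := p) (q := q) hd hu j
  nlinarith

theorem RR_len (K m : ℕ) : ∀ j (v : List (Fin d)),
    ∀ ω ∈ RR d K m j v, ∃ t : List (Fin d), t.length = j * m ∧ Conn (K + 1) ω v (t ++ v) := by
  intro j
  induction j with
  | zero =>
    intro v ω _
    exact ⟨[], by simp, Relation.ReflTransGen.refl⟩
  | succ j ih =>
    intro v ω h
    rw [RR_succ, mem_iUnion₂] at h
    obtain ⟨u, hu, h1, h2⟩ := h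
    obtain ⟨t, ht, h3⟩ := ih _ ω h2
    refine ⟨t ++ u, ?_, ?_⟩
    · rw [List.length_append, ht, mem_lv.1 hu]
      ring
    · rw [List.append_assoc]
      exact Relation.ReflTransGen.trans h1 h3

/-- Percolation. -/
theorem theta_pos {K m : ℕ} {p q : unitInterval} (hd : 1 ≤ d)
    (hX : 1 < (d : ℝ) ^ m * uu K p q m) : 0 < theta d (K + 1) p q := by
  have hm : 1 ≤ m := by
    rcases Nat.eq_zero_or_pos m with rfl | h
    · rw [uu_zero] at hX
      norm_num at hX
    · exact h
  obtain ⟨c, hc⟩ : ∃ c : ℝ, c = ((d : ℝ) ^ m * uu K p q m - 1) / ((d : ℝ) ^ m) ^ 2 := ⟨_, rfl⟩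
  have hd0 : (0 : ℝ) < (d : ℝ) ^ m := by
    have : (0 : ℝ) < d := by exact_mod_cast hd
    positivity
  have hc0 : 0 < c := by
    rw [hc]
    apply div_pos (by linarith) (by positivity)
  have hanti : Antitone (fun j => RR d K m j ([] : List (Fin d))) :=
    antitone_nat_of_succ_le fun j => RR_anti K m j []
  have hlim := tendsto_measure_iInter_atTop (μ := law d p q)
    (s := fun j => RR d K m j ([] : List (Fin d)))
    (fun j => (meas_RR K m j []).nullMeasurableSet) hanti ⟨0, measure_ne_top _ _⟩
  have hge : ENNReal.ofReal c ≤ (law d p q) (⋂ j, RR d K m j ([] : List (Fin d))) := by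
    refine ge_of_tendsto' hlim fun j => ?_
    simp only [Function.comp]
    rw [← ofReal_measureReal]
    apply ENNReal.ofReal_le_ofReal
    rw [hc]
    exact rho_ge hd hX j
  have hsub : (⋂ j, RR d K m j ([] : List (Fin d))) ⊆
      {ω | {w | Conn (K + 1) ω [] w}.Infinite} := by
    intro ω hω
    rw [mem_iInter] at hω
    intro hfin
    obtain ⟨N, hN⟩ := (hfin.image List.length).bddAbove
    obtain ⟨t, ht, h1⟩ := RR_len K m (N + 1) [] ω (hω (N + 1))
    rw [List.append_nil] at h1
    have h2 : t.length ≤ N := hN ⟨t, h1, rfl⟩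
    rw [ht] at h2
    nlinarith
  unfold theta
  rw [measureReal_def]
  apply ENNReal.toReal_pos _ (measure_ne_top _ _)
  intro h0
  have h1 := hge.trans (measure_mono hsub)
  rw [h0, nonpos_iff_eq_zero, ENNReal.ofReal_eq_zero] at h1
  linarith

end Q291.TL
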