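import Pool.Agent.Q291.TL.Line

/-!
Two-length oriented percolation on the `d`-ary tree.
-/

set_option autoImplicit false

namespace Q291.TL

open MeasureTheory ProbabilityTheory Set Measure Q291.GW

variable {d : ℕ}

/-- The vertices of the `d`-ary tree are the words `List (Fin d)`; the root is `[]`, the children
of `v` are the words `a :: v`, and the descendants of `v` exactly `k` generations below `v` are
the words `s ++ v` with `s` of length `k`.  The bit `ω (w, false)` tells whether the edge of
length `1` with head `w` is open, and the bit `ω (w, true)` whether the edge of length `k` with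
head `w` is open.  There is an open edge from `v` to `w`: -/
def OpenEdge (k : ℕ) (ω : List (Fin d) × Bool → Bool) (v w : List (Fin d)) : Prop :=
  (∃ a : Fin d, w = a :: v ∧ ω (w, false) = true) ∨
    (∃ s : List (Fin d), s.length = k ∧ w = s ++ v ∧ ω (w, true) = true)

/-- There is an oriented path of open edges from `v` to `w`. -/
def Conn (k : ℕ) (ω : List (Fin d) × Bool → Bool) (v w : List (Fin d)) : Prop :=
  Relation.ReflTransGen (OpenEdge k ω) v w

/-- The law of the edges: the edges of length `1` are open with probability `p`, those of length
`k` with probability `q`, independently. -/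
noncomputable def law (d : ℕ) (p q : unitInterval) : Measure (List (Fin d) × Bool → Bool) :=
  infinitePi fun e => bernoulliMeasure true false (if e.2 = true then q else p)

theorem law_eq (p q : unitInterval) : law d p q = bits (fun e => if e.2 = true then q else p) := rfl

instance (p q : unitInterval) : IsProbabilityMeasure (law d p q) := by
  rw [law_eq]
  infer_instance

/-- The percolation probability. -/
noncomputable def theta (d k : ℕ) (p q : unitInterval) : ℝ :=
  (law d p q).real {ω | {w | Conn k ω [] w}.Infinite}

/-- The critical curve. -/
noncomputable def qc (d k : ℕ) (p : unitInterval) : ℝ :=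
  sInf {x : ℝ | 0 < x ∧ x < 1 ∧ ∃ q : unitInterval, (q : ℝ) = x ∧ 0 < theta d k p q}

theorem open_suffix {k : ℕ} {ω : List (Fin d) × Bool → Bool} {v w : List (Fin d)}
    (h : OpenEdge k ω v w) : v <:+ w := by
  rcases h with ⟨a, rfl, _⟩ | ⟨s, _, rfl, _⟩
  · exact List.suffix_cons a v
  · exact List.suffix_append s v

theorem conn_suffix {k : ℕ} {ω : List (Fin d) × Bool → Bool} {v w : List (Fin d)}
    (h : Conn k ω v w) : v <:+ w := by
  induction h with
  | refl => exact List.suffix_refl v
  | tail _ hs ih => exact ih.trans (open_suffix hs)

/-- The bits on the line above `w`. -/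
def xw (w : List (Fin d)) (ω : List (Fin d) × Bool → Bool) : ℕ × Bool → Bool :=
  fun e => ω (w.drop e.1, e.2)

theorem conn_iff {K : ℕ} {ω : List (Fin d) × Bool → Bool} {w : List (Fin d)} : ∀ i,
    i ≤ w.length → (Conn (K + 1) ω (w.drop i) w ↔ A K (xw w ω) i) := by
  intro i
  induction i using Nat.strong_induction_on with
  | _ i ih =>
    intro hi
    rcases i with _ | n
    · rw [List.drop_zero]
      exact ⟨fun _ => A_zero _ _, fun _ => Relation.ReflTransGen.refl⟩
    · rw [A_succ]
      constructor
      · intro h
        rcases Relation.ReflTransGen.cases_head h with h1 | ⟨c, hc, hr⟩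
        · exfalso
          have := congrArg List.length h1
          rw [List.length_drop] at this
          omega
        · have hsuf := conn_suffix hr
          have hle := hsuf.length_le
          rw [List.suffix_iff_eq_drop] at hsuf
          rcases hc with ⟨a, hca, hω⟩ | ⟨s, hs, hcs, hω⟩
          · left
            have hlen : c.length = w.length - n := by
              rw [hca, List.length_cons, List.length_drop]
              omega
            have hcd : c = w.drop n := by
              rw [hsuf, hlen]
              congr 1
              omega
            rw [hcd] at hr hω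
            exact ⟨hω, (ih n (by omega) (by omega)).1 hr⟩
          · right
            have hlen : c.length = w.length - (n + 1) + (K + 1) := by
              rw [hcs, List.length_append, List.length_drop, hs]
              omega
            have hKn : K ≤ n := by omega
            have hcd : c = w.drop (n - K) := by
              rw [hsuf, hlen]
              congr 1
              omega
            rw [hcd] at hr hω
            exact ⟨hKn, hω, (ih (n - K) (by omega) (by omega)).1 hr⟩
      · rintro (⟨hω, hA⟩ | ⟨hKn, hω, hA⟩)
        · refine Relation.ReflTransGen.head (b := w.drop n) ?_ ((ih n (by omega) (by omega)).2 hA)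
          left
          exact ⟨w[n], List.drop_eq_getElem_cons (by omega), hω⟩
        · refine Relation.ReflTransGen.head (b := w.drop (n - K)) ?_
            ((ih (n - K) (by omega) (by omega)).2 hA)
          right
          refine ⟨(w.drop (n - K)).take (K + 1), ?_, ?_, hω⟩
          · rw [List.length_take, List.length_drop]
            omega
          · have h1 := (List.take_append_drop (K + 1) (w.drop (n - K))).symm
            rw [List.drop_drop] at h1
            have h2 : n - K + (K + 1) = n + 1 := by omega
            rw [h2] at h1
            exact h1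

/-- Extension of finitely many bits. -/
def ext (n : ℕ) (y : Fin n × Bool → Bool) : ℕ × Bool → Bool :=
  fun e => if h : e.1 < n then y (⟨e.1, h⟩, e.2) else false

theorem meas_conn_aux {ι : Type*} {r : ι → unitInterval} {K n : ℕ} (φ : Fin n × Bool → ι)
    (hφ : Function.Injective φ) (p q : unitInterval)
    (hr : ∀ e, r (φ e) = if e.2 = true then q else p) :
    (bits r).real {ω | A K (ext n (fun e => ω (φ e))) n} =
      (bits (fun e : Fin n × Bool => if e.2 = true then q else p)).real
        {y | A K (ext n y) n} := by
  have h1 := bits_reindex (r := r) φ hφ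
  have h2 : (fun e : Fin n × Bool => r (φ e)) = fun e => if e.2 = true then q else p := by
    funext e
    exact hr e
  rw [h2] at h1
  rw [← h1, map_measureReal_apply (by fun_prop) (Set.toFinite _).measurableSet]
  rfl

theorem A_ext {K n : ℕ} (x : ℕ × Bool → Bool) :
    A K (ext n (fun e => x (e.1, e.2))) n ↔ A K x n := by
  apply A_congr
  rintro ⟨j, b⟩ he
  have hj : j < n := by
    cases b
    · exact mem_DD_f.1 he
    · have := mem_DD_t.1 he
      omega
  unfold ext
  simp [hj]

theorem prob_conn {K : ℕ} {p q : unitInterval} {w : List (Fin d)} {i : ℕ} (hi : i ≤ w.length) :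
    (law d p q).real {ω | Conn (K + 1) ω (w.drop i) w} = uu K p q i := by
  have h1 : {ω : List (Fin d) × Bool → Bool | Conn (K + 1) ω (w.drop i) w} =
      {ω | A K (ext i (fun e => ω (w.drop e.1, e.2))) i} := by
    ext ω
    have h2 := conn_iff (K := K) (ω := ω) (w := w) i hi
    have h3 := A_ext (K := K) (n := i) (xw w ω)
    exact h2.trans h3.symm
  rw [h1, law_eq, meas_conn_aux (fun e : Fin i × Bool => (w.drop e.1, e.2)) ?_ p q
    (fun e => rfl)]
  · have h4 : AA K i = {x | A K (ext i (fun e => x ((e.1 : ℕ), e.2))) i} := by
      ext x
      exact (A_ext (K := K) (n := i) x).symm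
    unfold uu
    rw [h4, meas_conn_aux (fun e : Fin i × Bool => ((e.1 : ℕ), e.2)) ?_ p q (fun e => rfl)]
    rintro ⟨a, b⟩ ⟨a', b'⟩ h
    simp only [Prod.mk.injEq] at h ⊢
    exact ⟨Fin.ext h.1, h.2⟩
  · rintro ⟨a, b⟩ ⟨a', b'⟩ h
    simp only [Prod.mk.injEq] at h ⊢
    refine ⟨Fin.ext ?_, h.2⟩
    have h5 := congrArg List.length h.1
    rw [List.length_drop, List.length_drop] at h5
    have := a.2
    have := a'.2
    omega

theorem meas_conn {K : ℕ} {w : List (Fin d)} {i : ℕ} (hi : i ≤ w.length) :
    MeasurableSet {ω : List (Fin d) × Bool → Bool | Conn (K + 1) ω (w.drop i) w} := by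
  have h1 : {ω : List (Fin d) × Bool → Bool | Conn (K + 1) ω (w.drop i) w} =
      (fun ω => xw w ω) ⁻¹' (AA K i) := by
    ext ω
    exact conn_iff (K := K) (ω := ω) (w := w) i hi
  rw [h1]
  have hm : Measurable (fun ω : List (Fin d) × Bool → Bool => xw w ω) := by
    unfold xw
    fun_prop
  exact hm (meas_AA K i)

/-- Connections in terms of words. -/
theorem meas_conn' {K : ℕ} (u v : List (Fin d)) :
    MeasurableSet {ω : List (Fin d) × Bool → Bool | Conn (K + 1) ω v (u ++ v)} := by
  have h1 := meas_conn (K := K) (w := u ++ v) (i := u.length) (by simp)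
  rwa [List.drop_left] at h1

theorem prob_conn' {K : ℕ} {p q : unitInterval} (u v : List (Fin d)) :
    (law d p q).real {ω | Conn (K + 1) ω v (u ++ v)} = uu K p q u.length := by
  have h1 := prob_conn (K := K) (p := p) (q := q) (w := u ++ v) (i := u.length) (by simp)
  rwa [List.drop_left] at h1

theorem dep_conn {K : ℕ} (u v : List (Fin d)) :
    DepOn {e : List (Fin d) × Bool | ∃ t : List (Fin d), t ≠ [] ∧ t.length ≤ u.length ∧
      e.1 = t ++ v} {ω : List (Fin d) × Bool → Bool | Conn (K + 1) ω v (u ++ v)} := by
  intro ω ω' hab h
  have hi : u.length ≤ (u ++ v).length := by simp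
  have h1 : Conn (K + 1) ω ((u ++ v).drop u.length) (u ++ v) := by
    rw [List.drop_left]
    exact h
  rw [conn_iff _ hi] at h1
  have h2 : A K (xw (u ++ v) ω') u.length := by
    refine (A_congr _ ?_).1 h1
    rintro ⟨j, b⟩ he
    have hj : j < u.length := by
      cases b
      · exact mem_DD_f.1 he
      · have := mem_DD_t.1 he
        omega
    unfold xw
    simp only
    apply hab
    refine ⟨u.drop j, ?_, ?_, ?_⟩
    · intro hc
      have := congrArg List.length hc
      rw [List.length_drop, List.length_nil] at this
      omega
    · rw [List.length_drop]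
      omega
    · simp only
      rw [List.drop_append_of_le_length hj.le]
  rw [← conn_iff _ hi, List.drop_left] at h2
  exact h2

/-! ### Translation -/

/-- The configuration seen from `v`. -/
def sft (v : List (Fin d)) (ω : List (Fin d) × Bool → Bool) : List (Fin d) × Bool → Bool :=
  fun e => ω (e.1 ++ v, e.2)

theorem law_sft (p q : unitInterval) (v : List (Fin d)) :
    (law d p q).map (sft v) = law d p q := by
  rw [law_eq]
  have h := bits_reindex (r := fun e : List (Fin d) × Bool => if e.2 = true then q else p)
    (fun e : List (Fin d) × Bool => (e.1 ++ v, e.2)) (by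
      rintro ⟨a, b⟩ ⟨a', b'⟩ h
      simp only [Prod.mk.injEq, List.append_cancel_right_eq] at h ⊢
      exact h)
  exact h

theorem meas_sft (v : List (Fin d)) : Measurable (sft v) := by
  unfold sft
  fun_prop

theorem conn_sft {k : ℕ} {ω : List (Fin d) × Bool → Bool} {u v : List (Fin d)} :
    Conn k (sft v ω) [] u ↔ Conn k ω v (u ++ v) := by
  constructor
  · intro h
    have key : ∀ z, Conn k (sft v ω) [] z → Conn k ω v (z ++ v) := by
      intro z hz
      induction hz with
      | refl => exact Relation.ReflTransGen.refl
      | @tail b c _ hs ih =>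
        refine ih.tail ?_
        rcases hs with ⟨a, hc, hω⟩ | ⟨s, hs, hc, hω⟩
        · left
          exact ⟨a, by rw [hc, List.cons_append], hω⟩
        · right
          exact ⟨s, hs, by rw [hc, List.append_assoc], hω⟩
    exact key u h
  · intro h
    have key : ∀ z, Conn k ω v z → ∃ u', z = u' ++ v ∧ Conn k (sft v ω) [] u' := by
      intro z hz
      induction hz with
      | refl => exact ⟨[], rfl, Relation.ReflTransGen.refl⟩
      | @tail b c _ hs ih =>
        obtain ⟨u', hu', hr⟩ := ih
        rcases hs with ⟨a, hc, hω⟩ | ⟨s, hs, hc, hω⟩
        · refine ⟨a :: u', by rw [hc, hu', List.cons_append], hr.tail ?_⟩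
          left
          refine ⟨a, rfl, ?_⟩
          unfold sft
          simp only
          rw [List.cons_append, ← hu', ← hc]
          exact hω
        · refine ⟨s ++ u', by rw [hc, hu', List.append_assoc], hr.tail ?_⟩
          right
          refine ⟨s, hs, rfl, ?_⟩
          unfold sft
          simp only
          rw [List.append_assoc, ← hu', ← hc]
          exact hω
    obtain ⟨u', hu', hr⟩ := key _ h
    rw [List.append_cancel_right_eq] at hu'
    rw [hu']
    exact hr

/-! ### Levels -/

/-- The words of length `n`. -/
def lv (d n : ℕ) : Finset (List (Fin d)) :=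
  (Finset.univ : Finset (Fin n → Fin d)).image List.ofFn

theorem mem_lv {n : ℕ} {w : List (Fin d)} : w ∈ lv d n ↔ w.length = n := by
  unfold lv
  rw [Finset.mem_image]
  constructor
  · rintro ⟨f, _, rfl⟩
    simp
  · rintro rfl
    exact ⟨fun i => w.get i, Finset.mem_univ _, List.ofFn_get w⟩

theorem card_lv (n : ℕ) : (lv d n).card = d ^ n := by
  unfold lv
  rw [Finset.card_image_of_injective _ List.ofFn_injective, Finset.card_univ]
  simp

end Q291.TL
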